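import Pool.Agent.Helper12.RQ.Goals

/-!
# Packet HOMEO (MP_a2585e_an): the homeomorphism of a star function
-/

set_option autoImplicit false

open MeasureTheory Set Filter Topology Metric

open scoped ENNReal NNReal

namespace Pool.Agent.Helper57.RQ

open Pool.Agent.Helper12.RQ

section

variable {n : ℕ} {c l : ℝ} {N : E n → ℝ}

theorem star_lower (h : IsStar c l N) (y : E n) : c * ‖y‖ ≤ N y := by
  have := h.slope y 0 ⟨le_refl _, zero_le_one⟩
  rw [zero_smul, h.zero] at this
  linarith

theorem star_upper (h : IsStar c l N) (y : E n) : N y ≤ l * ‖y‖ := by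
  have := h.lip y 0
  rw [h.zero, sub_zero, sub_zero] at this
  exact (le_abs_self _).trans this

theorem star_nonneg (h : IsStar c l N) (y : E n) : 0 ≤ N y :=
  le_trans (mul_nonneg h.cpos.le (norm_nonneg _)) (star_lower h y)

theorem star_lip (h : IsStar c l N) : LipschitzWith (Real.toNNReal l) N := by
  apply LipschitzWith.of_dist_le_mul
  intro x y
  rw [Real.dist_eq, dist_eq_norm]
  refine (h.lip x y).trans ?_
  exact mul_le_mul_of_nonneg_right (Real.le_coe_toNNReal l) (norm_nonneg _)

theorem star_cont (h : IsStar c l N) : Continuous N := (star_lip h).continuous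

theorem star_eq_zero (h : IsStar c l N) {y : E n} (hy : N y = 0) : y = 0 := by
  have h1 := star_lower h y
  rw [hy] at h1
  have h2 : ‖y‖ ≤ 0 := by
    by_contra hcon
    push Not at hcon
    have := mul_pos h.cpos hcon
    linarith
  exact norm_le_zero_iff.mp h2

/-- the radial map -/
noncomputable def Psi (N : E n → ℝ) (y : E n) : E n := (N y / ‖y‖) • y

theorem norm_Psi (h : IsStar c l N) (y : E n) : ‖Psi N y‖ = N y := by
  unfold Psi
  by_cases hy : y = 0
  · rw [hy, smul_zero, norm_zero, h.zero]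
  · rw [norm_smul, Real.norm_of_nonneg (div_nonneg (star_nonneg h y) (norm_nonneg _)),
      div_mul_cancel₀ _ (norm_ne_zero_iff.mpr hy)]

theorem Psi_cont (h : IsStar c l N) : Continuous (Psi N) := by
  rw [continuous_iff_continuousAt]
  intro y
  by_cases hy : y = 0
  · subst hy
    have h0 : Psi N 0 = 0 := by unfold Psi; rw [smul_zero]
    rw [ContinuousAt, h0]
    apply squeeze_zero_norm (a := N) (fun t => (norm_Psi h t).le)
    have := (star_cont h).tendsto 0
    rw [h.zero] at this
    exact this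
  · unfold Psi
    have h1 : ContinuousAt (fun y : E n => N y / ‖y‖) y :=
      (star_cont h).continuousAt.div continuous_norm.continuousAt (norm_ne_zero_iff.mpr hy)
    exact h1.smul continuousAt_id

theorem Psi_inj_aux (h : IsStar c l N) {y z : E n} (hyz : Psi N y = Psi N z)
    (hle : ‖y‖ ≤ ‖z‖) : y = z := by
  have hN : N y = N z := by rw [← norm_Psi h y, ← norm_Psi h z, hyz]
  by_cases hz : z = 0
  · rw [hz]
    apply norm_le_zero_iff.mp
    rw [hz, norm_zero] at hle
    exact hle
  have hz' : 0 < ‖z‖ := norm_pos_iff.mpr hz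
  have hNz : N z ≠ 0 := fun h0 => hz (star_eq_zero h h0)
  have hy : y ≠ 0 := by
    intro h0
    apply hNz
    rw [← hN, h0, h.zero]
  have hy' : 0 < ‖y‖ := norm_pos_iff.mpr hy
  have e : y = (‖y‖ / ‖z‖) • z := by
    unfold Psi at hyz
    rw [hN] at hyz
    have e1 : y = (‖y‖ / N z) • ((N z / ‖y‖) • y) := by
      rw [smul_smul]
      have : ‖y‖ / N z * (N z / ‖y‖) = 1 := by field_simp
      rw [this, one_smul]
    rw [hyz, smul_smul] at e1
    have : ‖y‖ / N z * (N z / ‖z‖) = ‖y‖ / ‖z‖ := by field_simp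
    rw [this] at e1
    exact e1
  have ht : ‖y‖ / ‖z‖ ∈ Icc (0 : ℝ) 1 :=
    ⟨div_nonneg hy'.le hz'.le, (div_le_one hz').mpr hle⟩
  have hs := h.slope z _ ht
  rw [← e, hN, sub_self] at hs
  have h1 : 1 - ‖y‖ / ‖z‖ ≤ 0 := by
    by_contra hcon
    push Not at hcon
    have := mul_pos (mul_pos h.cpos hcon) hz'
    linarith
  have h2 : ‖y‖ / ‖z‖ = 1 := le_antisymm ht.2 (by linarith)
  rw [e, h2, one_smul]

theorem Psi_inj (h : IsStar c l N) : Function.Injective (Psi N) := by
  intro y z hyz
  rcases le_total ‖y‖ ‖z‖ with hle | hle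
  · exact Psi_inj_aux h hyz hle
  · exact (Psi_inj_aux h hyz.symm hle).symm

theorem Psi_surj (h : IsStar c l N) : Function.Surjective (Psi N) := by
  intro x
  by_cases hx : x = 0
  · refine ⟨0, ?_⟩
    unfold Psi
    rw [smul_zero, hx]
  have hx' : 0 < ‖x‖ := norm_pos_iff.mpr hx
  set e : E n := ‖x‖⁻¹ • x with he
  have hne : ‖e‖ = 1 := by
    rw [he, norm_smul, norm_inv, norm_norm, inv_mul_cancel₀ hx'.ne']
  have hxe : x = ‖x‖ • e := by
    rw [he, smul_smul, mul_inv_cancel₀ hx'.ne', one_smul]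
  have hg : ContinuousOn (fun t : ℝ => N (t • e)) (Icc 0 (‖x‖ / c)) :=
    ((star_cont h).comp (by fun_prop)).continuousOn
  have hnn : (0 : ℝ) ≤ ‖x‖ / c := div_nonneg hx'.le h.cpos.le
  have hiv := intermediate_value_Icc hnn hg
  have hmem : ‖x‖ ∈ Icc (N ((0 : ℝ) • e)) (N ((‖x‖ / c) • e)) := by
    constructor
    · rw [zero_smul, h.zero]
      exact hx'.le
    · have := star_lower h ((‖x‖ / c) • e)
      rw [norm_smul, hne, mul_one, Real.norm_of_nonneg hnn, mul_div_cancel₀ _ h.cpos.ne'] at this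
      exact this
  obtain ⟨t, ht, hNt⟩ := hiv hmem
  have hNt' : N (t • e) = ‖x‖ := hNt
  have ht0 : 0 < t := by
    rcases ht.1.eq_or_lt with h0 | h0
    · exfalso
      rw [← h0, zero_smul, h.zero] at hNt'
      linarith
    · exact h0
  refine ⟨t • e, ?_⟩
  unfold Psi
  rw [hNt', norm_smul, hne, mul_one, Real.norm_of_nonneg ht0.le, smul_smul,
    div_mul_cancel₀ _ ht0.ne', ← hxe]

theorem Psi_closed (h : IsStar c l N) : IsClosedMap (Psi N) := by
  have hp : IsProperMap (Psi N) := by
    rw [isProperMap_iff_tendsto_cocompact]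
    refine ⟨Psi_cont h, ?_⟩
    rw [← Metric.cobounded_eq_cocompact, ← tendsto_norm_atTop_iff_cobounded]
    have h1 : Tendsto (fun y : E n => c * ‖y‖) (Bornology.cobounded (E n)) atTop :=
      tendsto_norm_cobounded_atTop.const_mul_atTop h.cpos
    apply tendsto_atTop_mono _ h1
    intro y
    rw [norm_Psi h]
    exact star_lower h y
  exact hp.isClosedMap

end

theorem homeo : StmtHOMEO := by
  intro n c l N h
  set e : E n ≃ E n := Equiv.ofBijective (Psi N) ⟨Psi_inj h, Psi_surj h⟩ with he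
  set g : E n ≃ₜ E n := e.toHomeomorphOfContinuousClosed (Psi_cont h) (Psi_closed h) with hg
  have hgx : ∀ x, Psi N (g.symm x) = x := fun x => g.apply_symm_apply x
  refine ⟨g.symm, fun x => ?_, fun x => ?_⟩
  · rw [← norm_Psi h, hgx]
  · have h1 : Psi N (g.symm x) = x := hgx x
    generalize g.symm x = w at h1
    by_cases hx : w = 0
    · exact ⟨0, le_refl _, by rw [zero_smul]; exact hx⟩
    · have hN : N w ≠ 0 := fun h0 => hx (star_eq_zero h h0)
      have hn : ‖w‖ ≠ 0 := norm_ne_zero_iff.mpr hx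
      refine ⟨(N w / ‖w‖)⁻¹,
        inv_nonneg.mpr (div_nonneg (star_nonneg h _) (norm_nonneg _)), ?_⟩
      rw [← h1, Psi, smul_smul, inv_mul_cancel₀ (div_ne_zero hN hn), one_smul]

end Pool.Agent.Helper57.RQ
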