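import Pool.Agent.Helper12.RQ.Goals
import Pool.Agent.Helper57.RQ.HOMEO

/-!
# Packet CHAIN (MP_a2585e_an): composition with a function of one variable
-/

set_option autoImplicit false

open MeasureTheory Set Filter Topology Metric

open scoped ENNReal NNReal

namespace Pool.Agent.Helper57.RQ

open Pool.Agent.Helper12.RQ

theorem chain (hD : StmtDENS) : StmtCHAIN := by
  intro n p c l N D d₁ d₂ hn hp hN hdens h C hh B hB hB0 ψ hψ
  have hp0 : 0 ≤ p := by linarith
  -- null sets
  have hNcont := star_cont hN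
  have hNm : Measurable N := hNcont.measurable
  have hZ : ∀ᵐ t : ℝ, DifferentiableAt ℝ h t := hh.ae_differentiableAt
  have hZ' : volume {t : ℝ | ¬ DifferentiableAt ℝ h t} = 0 := hZ
  have hnull : volume (N ⁻¹' ({t : ℝ | ¬ DifferentiableAt ℝ h t} ∩ B)) = 0 :=
    (hD n p c l N hn hp hN).2 _ (inter_subset_right.trans hB0)
      (measure_mono_null inter_subset_left hZ')
  have hae1 : ∀ᵐ y : E n, y ∉ N ⁻¹' ({t : ℝ | ¬ DifferentiableAt ℝ h t} ∩ B) :=
    measure_eq_zero_iff_ae_notMem.mp hnull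
  have hae2 : ∀ᵐ y : E n, DifferentiableAt ℝ N y := (star_lip hN).ae_differentiableAt
  -- notation
  set g : ℝ → ℝ≥0∞ := fun t => ψ (h t) * ‖deriv h t‖ₑ ^ p with hg
  set w : E n → ℝ≥0∞ := fun y => ‖fderiv ℝ N y‖ₑ ^ p with hw
  have hgm : Measurable g :=
    (hψ.comp hh.continuous.measurable).mul ((measurable_deriv h).enorm.pow_const p)
  have hwm : Measurable w := (measurable_fderiv ℝ N).enorm.pow_const p
  have hpre : MeasurableSet (N ⁻¹' B) := hNm hB
  have h1 : ∫⁻ y in N ⁻¹' B, ψ (h (N y)) * ‖fderiv ℝ (fun z => h (N z)) y‖ₑ ^ p =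
      ∫⁻ y in N ⁻¹' B, w y * g (N y) := by
    apply lintegral_congr_ae
    rw [EventuallyEq, ae_restrict_iff' hpre]
    filter_upwards [hae1, hae2] with y hy1 hy2 hyB
    have hdh : DifferentiableAt ℝ h (N y) := by
      by_contra hcon
      exact hy1 ⟨hcon, hyB⟩
    have hf : HasFDerivAt (fun z => h (N z)) (deriv h (N y) • fderiv ℝ N y) y :=
      hdh.hasDerivAt.comp_hasFDerivAt y hy2.hasFDerivAt
    rw [hf.fderiv, enorm_smul, ENNReal.mul_rpow_of_nonneg _ _ hp0, hg, hw]
    ring
  rw [h1]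
  have h2 : ∫⁻ y in N ⁻¹' B, w y * g (N y) =
      ∫⁻ y in N ⁻¹' B, g (N y) ∂(volume.withDensity w) := by
    rw [restrict_withDensity hpre]
    exact (lintegral_withDensity_eq_lintegral_mul (volume.restrict (N ⁻¹' B)) hwm
      (hgm.comp hNm)).symm
  rw [h2]
  have h3 : ∫⁻ y in N ⁻¹' B, g (N y) ∂(volume.withDensity w) =
      ∫⁻ t in B, g t ∂((volume.withDensity w).map N) := by
    rw [setLIntegral_map hB hgm hNm]
  rw [h3]
  have h4 : ((volume.withDensity w).map N).restrict B = (volume.withDensity D).restrict B := by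
    ext A hA
    rw [Measure.restrict_apply hA, Measure.restrict_apply hA,
      Measure.map_apply hNm (hA.inter hB), withDensity_apply _ (hNm (hA.inter hB)),
      withDensity_apply _ (hA.inter hB)]
    exact hdens.flux_eq (A ∩ B) (hA.inter hB) (inter_subset_right.trans hB0)
  rw [h4, restrict_withDensity hB, lintegral_withDensity_eq_lintegral_mul _ hdens.meas hgm]
  apply lintegral_congr
  intro t
  rw [Pi.mul_apply, hg]
  ring

end Pool.Agent.Helper57.RQ
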